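import Mathlib

set_option autoImplicit false

namespace Pool.Agent.Results.MP_c23e02_co.Equal

/-- `S` is `D`-colorable: colour `j` avoids the distances in column `j` of `D`. -/
def Colorable (S : Set ℝ) {k m : ℕ} (D : Fin k → Fin m → ℝ) : Prop :=
  ∃ T : S → Fin m, ∀ (i : Fin k) (j : Fin m) (x y : S),
    |(x : ℝ) - y| = D i j → ¬ (T x = j ∧ T y = j)

/-- The `k`-th upper chromatic number (`⊤` if no `m` works). -/
noncomputable def chi (S : Set ℝ) (k : ℕ) : ℕ∞ :=
  sInf {c : ℕ∞ | ∃ m : ℕ, c = m ∧ 0 < m ∧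
    ∀ D : Fin k → Fin m → ℝ, (∀ i j, 0 < D i j) → Colorable S D}

/-- The upper chromatic numbers of the real line and of the integers agree. -/
theorem result (k : ℕ) : chi Set.univ k = chi (Set.range (Int.cast : ℤ → ℝ)) k := by
  unfold chi
  congr 1
  ext c
  refine exists_congr fun m => and_congr_right fun _ => and_congr_right fun _ =>
    ⟨fun h D hD => ?_, fun h D hD => ?_⟩
  · obtain ⟨T, hT⟩ := h D hD
    exact ⟨fun x => T ⟨x, trivial⟩, fun i j x y => hT i j ⟨x, trivial⟩ ⟨y, trivial⟩⟩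
  · obtain ⟨φ, hφ⟩ := Module.exists_dual_forall_apply_ne_zero (K := ℚ)
      (fun p : Fin k × Fin m => D p.1 p.2) fun p => (hD _ _).ne'
    obtain ⟨N, hN⟩ := IsLocalization.exist_integer_multiples_of_finite (nonZeroDivisors ℤ)
      fun p : Fin k × Fin m => φ (D p.1 p.2)
    choose z hz using hN
    have hz' : ∀ p, (z p : ℚ) = (N : ℤ) * φ (D p.1 p.2) := fun p => by simpa using hz p
    have hz0 : ∀ p, z p ≠ 0 := fun p h0 => by
      have := hz' p
      rw [h0, Int.cast_zero, eq_comm, mul_eq_zero] at this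
      exact this.elim (by exact_mod_cast nonZeroDivisors.ne_zero N.2) (hφ p)
    obtain ⟨T, hT⟩ := h (fun i j => |(z (i, j) : ℝ)|) fun i j =>
      abs_pos.2 (by exact_mod_cast hz0 _)
    have key : ∀ i j (x y : ℝ), x - y = D i j →
        ⌊((N : ℤ) : ℚ) * φ x⌋ = ⌊((N : ℤ) : ℚ) * φ y⌋ + z (i, j) := by
      intro i j x y e
      rw [eq_add_of_sub_eq' e, map_add, mul_add, ← hz' (i, j), Int.floor_add_intCast]
    refine ⟨fun x => T ⟨_, ⌊((N : ℤ) : ℚ) * φ x⌋, rfl⟩, fun i j x y e => hT i j _ _ ?_⟩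
    rcases (abs_eq (hD i j).le).1 e with e | e
    · simp [key i j x y e]
    · simp [key i j y x (by linarith)]

end Pool.Agent.Results.MP_c23e02_co.Equal
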